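import Pool.Agent.Helper85.REC.Stmts6
import Pool.Agent.Helper85.MU.Final

/-!
# ADE0: finitely many adelic realizations (adapted from `MU.ade_regular`)
-/

set_option autoImplicit false

open NumberField

namespace REC

open MU

theorem ade_reg0 (hFAL : MU.ST_FAL) (hTRQ : MU.ST_TRQ) (hBNS : MU.ST_BNS) (hLAT : MU.ST_LAT)
    (hLARGE : MU.ST_LARGE) (F : Type) [Field F] [NumberField F] (S : Finset ℕ)
    (hS : ∀ p ∈ S, p.Prime) (n w : ℕ) (h : Fin n → ℕ) :
    ∃ (κ : Type) (_ : Finite κ) (col : Mot F S n w h → κ),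
      ∀ M M' : Mot F S n w h, Reg0 M → Reg0 M' → col M = col M' → M.AdelicIso M' := by
  classical
  obtain ⟨κ, hκ, col, hcol⟩ := hFAL F S hS n w h
  -- representatives
  have hrep : ∀ k : κ, ∃ (c m : ℕ) (f : ∀ (l : ℕ) [Fact l.Prime],
      (Gal F →* Matrix.GeneralLinearGroup (Fin n) ℤ_[l]) → ℕ),
      (∀ (l : ℕ) [Fact l.Prime], l ≤ c → ∀ s, f l s < m) ∧
      ∀ M M' : Mot F S n w h, Reg0 M → Reg0 M' → col M = k → col M' = k →
        ∀ (l : ℕ) [Fact l.Prime], (c < l ∨ f l (M.ρ l) = f l (M'.ρ l)) →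
          EqvZ (M.ρ l) (M'.ρ l) := by
    intro k
    by_cases hk : ∃ R : Mot F S n w h, Reg0 R ∧ col R = k
    · obtain ⟨R, hR, hRk⟩ := hk
      obtain ⟨h1', c, hc⟩ := hR
      have h1 : ∀ (l : ℕ) [Fact l.Prime], IsIrr (rat (R.ρ l)) := fun l _ => h1' l
      have h2 : ∀ (l : ℕ) [Fact l.Prime] (M : Mot F S n w h), col M = k →
          EqvQ (R.ρ l) (M.ρ l) := by
        intro l _ M hM
        have htr := hTRQ F S hS n w h R M (hcol R M (hRk.trans hM.symm)) l
        exact hBNS (Gal F) ℚ_[l] n (rat (R.ρ l)) (rat (M.ρ l)) (h1 l) htr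
      have h3 : ∀ (l : ℕ) (_ : Fact l.Prime), ∃ (m : ℕ)
          (f : (Gal F →* Matrix.GeneralLinearGroup (Fin n) ℤ_[l]) → ℕ), (∀ s, f s < m) ∧
          ∀ s s', EqvQ (R.ρ l) s → EqvQ (R.ρ l) s' → f s = f s' → EqvZ s s' :=
        fun l _ => ade_color hLAT (R.ρ l) (h1 l)
      choose m f hf1 hf2 using h3
      let m' : ℕ → ℕ := fun l => if hl : l.Prime then m l ⟨hl⟩ else 0
      refine ⟨c, (Finset.range (c + 1)).sup m', fun l hl => f l hl, ?_, ?_⟩
      · intro l hl hlc s
        refine (hf1 l hl s).trans_le ?_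
        have h4 : m' l = m l hl := dif_pos hl.out
        rw [← h4]
        exact Finset.le_sup (f := m') (Finset.mem_range.2 (by omega))
      · intro M M' hM hM' hMk hM'k l hl hor
        rcases hor with hcl | hff
        · have h5 := hLARGE (Gal F) n l (R.ρ l) (M.ρ l) (hc l hcl) (h2 l M hMk)
          have h6 := hLARGE (Gal F) n l (R.ρ l) (M'.ρ l) (hc l hcl) (h2 l M' hM'k)
          exact h5.symm.trans h6
        · exact hf2 l hl _ _ (h2 l M hMk) (h2 l M' hM'k) hff
    · refine ⟨0, 0, fun l _ _ => 0, ?_, ?_⟩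
      · intro l hl h0
        have := hl.out.pos
        omega
      · intro M M' hM hM' hMk
        exact absurd ⟨M, hM, hMk⟩ hk
  choose c m f hf1 hf2 using hrep
  have : Fintype κ := Fintype.ofFinite κ
  set C : ℕ := Finset.univ.sup c with hC
  set D : ℕ := Finset.univ.sup m with hD
  have hcC : ∀ k, c k ≤ C := fun k => Finset.le_sup (Finset.mem_univ k)
  have hmD : ∀ k, m k ≤ D := fun k => Finset.le_sup (Finset.mem_univ k)
  refine ⟨κ × (Fin (C + 1) → Fin (D + 1)), inferInstance, fun M => (col M, fun l =>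
    if hl : (l : ℕ).Prime then
      ⟨min D (@f (col M) l ⟨hl⟩ (@Mot.ρ _ _ _ _ _ _ _ M l ⟨hl⟩)), by omega⟩ else 0), ?_⟩
  intro M M' hM hM' hMM' l hl
  have e1 : col M = col M' := congrArg Prod.fst hMM'
  have e2 := congrArg Prod.snd hMM'
  have key : EqvZ (M.ρ l) (M'.ρ l) := by
    refine hf2 (col M) M M' hM hM' rfl e1.symm l ?_
    by_cases hlc : c (col M) < l
    · exact Or.inl hlc
    · right
      push Not at hlc
      have hlC : l < C + 1 := by have := hcC (col M); omega
      have e3 := congrFun e2 ⟨l, hlC⟩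
      simp only [hl.out, dif_pos] at e3
      have e4 := congrArg Fin.val e3
      simp only at e4
      have b1 := (hf1 (col M) l hlc (M.ρ l)).le.trans (hmD _)
      have b2 := (hf1 (col M) l hlc (M'.ρ l)).le.trans (hmD _)
      rw [← e1] at e4
      rw [min_eq_right b1, min_eq_right b2] at e4
      exact e4
  exact key

theorem st_ADE0 : ST_ADE0 := fun F _ _ S hS n w h =>
  ade_reg0 all_FAL all_TRQ st_BNS st_LAT st_LARGE F S hS n w h

end REC
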