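import Pool.Agent.Helper85.REC.Stmts6
import Pool.Agent.Helper85.MU.Final

/-!
# HS2: the Hodge types of a motive of rank two
-/

set_option autoImplicit false

open NumberField

namespace REC

open MU

theorem st_HS2 : ST_HS2 := by
  intro F _ _ S hS w h M
  obtain ⟨r, x, k, 𝔔, hT⟩ := all_TRI F
  have : Fact (Nat.Prime 2) := ⟨Nat.prime_two⟩
  obtain ⟨⟨J, hJ, hsum, -⟩, -⟩ := (all_BAL F r x k 𝔔 hT S hS 2 w h M).1 2 2 1
    (fun σ => rat (M.ρ 2) σ) (by
      refine ⟨⟨1, by simp⟩, fun σ => by simp⟩)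
  have h1 : ∀ i, J i = Finset.univ := fun i => Finset.eq_univ_of_card _ (by rw [hJ i]; simp)
  have h2 : ∑ i, ∑ j ∈ J i, h j = Module.finrank ℚ F * (h 0 + h 1) := by
    have h3 : ∀ i ∈ (Finset.univ : Finset (Fin (Module.finrank ℚ F))), ∑ j ∈ J i, h j = h 0 + h 1 := by
      intro i _
      rw [h1 i, Fin.sum_univ_two]
    rw [Finset.sum_congr rfl h3, Finset.sum_const, Finset.card_univ, Fintype.card_fin, smul_eq_mul]
  rw [h2] at hsum
  have h4 : 0 < Module.finrank ℚ F := Module.finrank_pos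
  have h5 : (2 * Module.finrank ℚ F) * (h 0 + h 1) = (2 * Module.finrank ℚ F) * w := by
    linarith
  exact Nat.eq_of_mul_eq_mul_left (by omega) h5

end REC
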